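import Pool.Agent.Q189.CylProj

/-!
# MP_2b78ec_gt: the answer to Q1 is no

Every monotonic, `F`-preserving symmetrization which is invariant on `H`-symmetric spherical
cylinders is projection invariant.
-/

set_option autoImplicit false

namespace Pool.Agent.Results.MP_2b78ec_gt.AlwaysInvariant

open Q189.SymDefs

/-- The set function `F : 𝓑 → [0, ∞)` is strictly increasing. -/
def StrictlyIncreasing {n : ℕ} (𝓑 : Set (Set (E n))) (F : Set (E n) → ℝ) : Prop :=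
  ∀ K ∈ 𝓑, ∀ L ∈ 𝓑, K ⊆ L → K ≠ L → F K < F L

/-- `D` is `F`-preserving. -/
def Preserves {n : ℕ} (𝓑 : Set (Set (E n))) (F : Set (E n) → ℝ)
    (D : Set (E n) → Set (E n)) : Prop :=
  ∀ K ∈ 𝓑, F (D K) = F K

/-- **Theorem.** Let `H` be any linear subspace of `ℝⁿ` (any `n`, any dimension of `H`) and let `𝓑`
be `𝓚ⁿ` or `𝓚ⁿₙ`. There are no strictly increasing set function `F : 𝓑 → [0, ∞)` and no monotonic,
`F`-preserving symmetrization `𝓑 → 𝓑_H` which is invariant on `H`-symmetric spherical cylinders but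
is not projection invariant. -/
theorem result (n : ℕ) (H : Submodule ℝ (E n)) (𝓑 : Set (Set (E n)))
    (h𝓑 : 𝓑 = compactConvexSets n ∨ 𝓑 = convexBodies n) :
    ¬ ∃ (F : Set (E n) → ℝ) (D : Set (E n) → Set (E n)),
      (∀ K ∈ 𝓑, 0 ≤ F K) ∧ StrictlyIncreasing 𝓑 F ∧ IsSymmetrization 𝓑 H D ∧ Monotonic 𝓑 D ∧
        Preserves 𝓑 F D ∧ InvariantOnCylinders H D ∧ ¬ ProjectionInvariant 𝓑 H D := by
  rintro ⟨F, D, -, -, h1, h2, -, h4, h5⟩
  exact h5 (Q189.CylProj.main H 𝓑 h𝓑 D h1.mem h2 h4)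

end Pool.Agent.Results.MP_2b78ec_gt.AlwaysInvariant
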